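import Pool.Agent.Y476.LC.Chord

set_option autoImplicit false

/-!
# The equality case
-/

namespace Pool.Agent.Y476.LC

/-- the point with `g = mg + x` and `f = mf + y` -/
noncomputable def pt (f g : ℝ × ℝ) (mf mg : ℝ) (x y : ℝ) : ℝ × ℝ :=
  (((mf + y) * g.2 - (mg + x) * f.2) / (f.1 * g.2 - f.2 * g.1),
    ((mg + x) * f.1 - (mf + y) * g.1) / (f.1 * g.2 - f.2 * g.1))

section
variable {f g : ℝ × ℝ} {mf mg : ℝ}

lemma ev_f_pt (hΔ : f.1 * g.2 - f.2 * g.1 ≠ 0) (x y : ℝ) : ev f (pt f g mf mg x y) = mf + y := by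
  simp only [ev, pt]
  rw [mul_div_assoc', mul_div_assoc', ← add_div, div_eq_iff hΔ]
  ring

lemma ev_g_pt (hΔ : f.1 * g.2 - f.2 * g.1 ≠ 0) (x y : ℝ) : ev g (pt f g mf mg x y) = mg + x := by
  simp only [ev, pt]
  rw [mul_div_assoc', mul_div_assoc', ← add_div, div_eq_iff hΔ]
  ring

lemma eq_pt (hΔ : f.1 * g.2 - f.2 * g.1 ≠ 0) (z : ℝ × ℝ) :
    z = pt f g mf mg (ev g z - mg) (ev f z - mf) := by
  apply Prod.ext
  · simp only [ev, pt]
    rw [eq_div_iff hΔ]
    ring
  · simp only [ev, pt]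
    rw [eq_div_iff hΔ]
    ring

lemma eq_pt' (hΔ : f.1 * g.2 - f.2 * g.1 ≠ 0) {z : ℝ × ℝ} {x y : ℝ} (h1 : ev g z = mg + x)
    (h2 : ev f z = mf + y) : z = pt f g mf mg x y := by
  rw [eq_pt (mf := mf) (mg := mg) hΔ z, h1, h2]
  congr 1 <;> ring

lemma pt_line (x y x' y' t : ℝ) :
    pt f g mf mg x y + t • (pt f g mf mg x' y' - pt f g mf mg x y) =
      pt f g mf mg (x + t * (x' - x)) (y + t * (y' - y)) := by
  apply Prod.ext
  · simp only [pt, Prod.fst_add, Prod.smul_fst, Prod.fst_sub, smul_eq_mul]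
    ring
  · simp only [pt, Prod.snd_add, Prod.smul_snd, Prod.snd_sub, smul_eq_mul]
    ring

lemma seg {C : Set (ℝ × ℝ)} (hC : Convex ℝ C) {x y x' y' : ℝ} (h1 : pt f g mf mg x y ∈ C)
    (h2 : pt f g mf mg x' y' ∈ C) {t : ℝ} (t0 : 0 ≤ t) (t1 : t ≤ 1) :
    pt f g mf mg (x + t * (x' - x)) (y + t * (y' - y)) ∈ C := by
  rw [← pt_line]
  exact hC.add_smul_sub_mem h1 h2 ⟨t0, t1⟩

lemma param {a b x : ℝ} (h1 : a ≤ x) (h2 : x ≤ b) : ∃ t, 0 ≤ t ∧ t ≤ 1 ∧ x = a + t * (b - a) := by
  rcases eq_or_lt_of_le (h1.trans h2) with h | h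
  · exact ⟨0, le_refl _, zero_le_one, by rw [zero_mul, add_zero]; linarith⟩
  · have hpos : 0 < b - a := by linarith
    refine ⟨(x - a) / (b - a), by apply div_nonneg <;> linarith, ?_, ?_⟩
    · rw [div_le_one hpos]; linarith
    · field_simp; ring

/-- the hexagon is the convex hull of its corners -/
lemma mem_of_bounds {C : Set (ℝ × ℝ)} (hC : Convex ℝ C) {z0 : ℝ}
    (c1 : pt f g mf mg z0 0 ∈ C) (c2 : pt f g mf mg 1 0 ∈ C) (c3 : pt f g mf mg 1 z0 ∈ C)
    (c4 : pt f g mf mg z0 1 ∈ C) (c5 : pt f g mf mg 0 1 ∈ C) (c6 : pt f g mf mg 0 z0 ∈ C)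
    {x y : ℝ} (x0 : 0 ≤ x) (x1 : x ≤ 1) (y0 : 0 ≤ y) (y1 : y ≤ 1) (s0 : z0 ≤ x + y)
    (s1 : x + y ≤ 1 + z0) : pt f g mf mg x y ∈ C := by
  rcases le_total y z0 with hy | hy
  · obtain ⟨t, t0, t1, ht⟩ := param y0 hy
    have l := seg hC c1 c6 t0 t1
    have r := seg hC c2 c3 t0 t1
    have hyt : y = t * z0 := by rw [ht]; ring
    have l' : pt f g mf mg (z0 - y) y ∈ C := by
      convert l using 2
      · rw [hyt]; ring
    have r' : pt f g mf mg 1 y ∈ C := by
      convert r using 2
      · ring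
    obtain ⟨s, s0', s1', hs⟩ := param (show z0 - y ≤ x by linarith) x1
    have := seg hC l' r' s0' s1'
    convert this using 2
    ring
  · obtain ⟨t, t0, t1, ht⟩ := param hy y1
    have l := seg hC c6 c5 t0 t1
    have r := seg hC c3 c4 t0 t1
    have l' : pt f g mf mg 0 y ∈ C := by
      convert l using 2
      · ring
    have r' : pt f g mf mg (1 + z0 - y) y ∈ C := by
      convert r using 2
      · rw [ht]; ring
    obtain ⟨s, s0', s1', hs⟩ := param x0 (show x ≤ 1 + z0 - y by linarith)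
    have := seg hC l' r' s0' s1'
    convert this using 2
    ring

end

/-- The structure of the extremal polygons: all six corners of the circumscribed hexagon
belong to the polygon. -/
theorem corners {m : ℕ} {v : Fin (m + 3) → ℝ × ℝ} (h : SC v) {f g : ℝ × ℝ}
    {mf mg mh : ℝ} {r : Fin (m + 3) → ℝ}
    (hf : ∀ x ∈ convexHull ℝ (Set.range v), mf ≤ ev f x ∧ ev f x ≤ mf + 1)
    (hg : ∀ x ∈ convexHull ℝ (Set.range v), mg ≤ ev g x ∧ ev g x ≤ mg + 1)
    (hh : ∀ x ∈ convexHull ℝ (Set.range v), mh ≤ ev f x + ev g x ∧ ev f x + ev g x ≤ mh + 1)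
    (hΔ : f.1 * g.2 - f.2 * g.1 ≠ 0)
    (hr : ∀ i, 0 < r i ∧ ∃ p ∈ convexHull ℝ (Set.range v), ∃ q ∈ convexHull ℝ (Set.range v),
      v (finRotate (m + 3) i) - v i = r i • (q - p))
    (heq : ∀ i,
      r i = (|ev f (v (finRotate (m + 3) i) - v i)| + |ev g (v (finRotate (m + 3) i) - v i)| +
        |ev f (v (finRotate (m + 3) i) - v i) + ev g (v (finRotate (m + 3) i) - v i)|) / 2)
    (h0 : ev f (v (finRotate (m + 3) 0) - v 0) = 0) :
    pt f g mf mg (mh - mf - mg) 0 ∈ convexHull ℝ (Set.range v) ∧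
    pt f g mf mg 1 0 ∈ convexHull ℝ (Set.range v) ∧
    pt f g mf mg 1 (mh - mf - mg) ∈ convexHull ℝ (Set.range v) ∧
    pt f g mf mg (mh - mf - mg) 1 ∈ convexHull ℝ (Set.range v) ∧
    pt f g mf mg 0 1 ∈ convexHull ℝ (Set.range v) ∧
    pt f g mf mg 0 (mh - mf - mg) ∈ convexHull ℝ (Set.range v) := by
  set K := convexHull ℝ (Set.range v) with hK
  set z0 := mh - mf - mg with hz0
  set e : Fin (m + 3) → ℝ × ℝ := fun i => v (finRotate (m + 3) i) - v i with he
  have hvK : ∀ i, v i ∈ K := fun i => subset_convexHull ℝ _ ⟨i, rfl⟩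
  have hf0 : f ≠ 0 := by
    rintro rfl; simp at hΔ
  have hg0 : g ≠ 0 := by
    rintro rfl; simp at hΔ
  have hh0 : f + g ≠ 0 := by
    intro h3
    have h4 : g = -f := by
      have : g = (f + g) - f := by abel
      rw [this, h3, zero_sub]
    rw [h4] at hΔ
    apply hΔ
    simp only [Prod.fst_neg, Prod.snd_neg]; ring
  -- the negative functional
  have hng : ∀ x ∈ K, -(mg + 1) ≤ ev (-g) x ∧ ev (-g) x ≤ -(mg + 1) + 1 := by
    intro x hx
    have := hg x hx
    rw [neg_ev]; constructor <;> linarith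
  have hhh : ∀ x ∈ K, mh ≤ ev (f + g) x ∧ ev (f + g) x ≤ mh + 1 := by
    intro x hx
    rw [add_ev]; exact hh x hx
  -- corner statements
  have Hor : (∃ k, ev f (e k) = 0) → pt f g mf mg 0 z0 ∈ K ∧ pt f g mf mg 1 z0 ∈ K := by
    rintro ⟨k, hk⟩
    obtain ⟨r0, p, hp, q, hq, hpq⟩ := hr k
    have hreq := heq k
    rw [show ev f (v (finRotate (m + 3) k) - v k) = 0 from hk, abs_zero, zero_add, zero_add] at hreq
    obtain ⟨p', hp', q', hq', a1, a2, a3, a4⟩ := corner hg hhh r0 hp hq hpq
      (by rw [hreq]; ring) (by rw [add_ev]; rw [show ev f (v (finRotate (m + 3) k) - v k) = 0 from hk, zero_add])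
    rw [add_ev] at a2 a4
    constructor
    · rw [← eq_pt' (z := p') hΔ (by rw [a1, add_zero]) (by rw [hz0]; linarith)]; exact hp'
    · rw [← eq_pt' (z := q') hΔ a3 (by rw [hz0]; linarith)]; exact hq'
  have Ver : (∃ k, ev g (e k) = 0) → pt f g mf mg z0 0 ∈ K ∧ pt f g mf mg z0 1 ∈ K := by
    rintro ⟨k, hk⟩
    obtain ⟨r0, p, hp, q, hq, hpq⟩ := hr k
    have hreq := heq k
    rw [show ev g (v (finRotate (m + 3) k) - v k) = 0 from hk, abs_zero, add_zero, add_zero] at hreq
    obtain ⟨p', hp', q', hq', a1, a2, a3, a4⟩ := corner hf hhh r0 hp hq hpq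
      (by rw [hreq]; ring) (by rw [add_ev]; rw [show ev g (v (finRotate (m + 3) k) - v k) = 0 from hk, add_zero])
    rw [add_ev] at a2 a4
    constructor
    · rw [← eq_pt' (z := p') hΔ (by rw [hz0]; linarith) (by rw [a1, add_zero])]; exact hp'
    · rw [← eq_pt' (z := q') hΔ (by rw [hz0]; linarith) a3]; exact hq'
  have Sla : (∃ k, ev (f + g) (e k) = 0) → pt f g mf mg 1 0 ∈ K ∧ pt f g mf mg 0 1 ∈ K := by
    rintro ⟨k, hk⟩
    obtain ⟨r0, p, hp, q, hq, hpq⟩ := hr k
    have hreq := heq k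
    have hk' : ev f (v (finRotate (m + 3) k) - v k) + ev g (v (finRotate (m + 3) k) - v k) = 0 := by
      rw [← add_ev]; exact hk
    have hk2 : ev g (v (finRotate (m + 3) k) - v k) = - ev f (v (finRotate (m + 3) k) - v k) := by
      linarith
    rw [hk', abs_zero, add_zero, hk2, abs_neg] at hreq
    obtain ⟨p', hp', q', hq', a1, a2, a3, a4⟩ := corner hf hng r0 hp hq hpq
      (by rw [hreq]; ring) (by rw [neg_ev, hk2]; ring)
    rw [neg_ev] at a2 a4
    constructor
    · rw [← eq_pt' (z := p') hΔ (by linarith) (by rw [a1, add_zero])]; exact hp'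
    · rw [← eq_pt' (z := q') hΔ (by linarith) a3]; exact hq'
  -- faces with two points
  have face : ∀ (φ : ℝ × ℝ) (μ : ℝ), φ ≠ 0 → (∀ x ∈ K, μ ≤ ev φ x ∧ ev φ x ≤ μ + 1) →
      ∀ x ∈ K, ∀ y ∈ K, x ≠ y → ((ev φ x = μ ∧ ev φ y = μ) ∨ (ev φ x = μ + 1 ∧ ev φ y = μ + 1)) →
      ∃ k, ev φ (e k) = 0 := by
    intro φ μ hφ hb x hx y hy hxy hor
    rcases hor with ⟨h1, h2⟩ | ⟨h1, h2⟩
    · exact face_edge h hφ (fun i => (hb _ (hvK i)).1) hx hy hxy h1 h2
    · obtain ⟨k, hk⟩ := face_edge h (φ := -φ) (μ := -(μ + 1)) (neg_ne_zero.2 hφ)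
        (fun i => by rw [neg_ev]; linarith [(hb _ (hvK i)).2]) hx hy hxy
        (by rw [neg_ev, h1]) (by rw [neg_ev, h2])
      exact ⟨k, by rw [neg_ev] at hk; linarith⟩
  obtain ⟨c6, c3⟩ := Hor ⟨0, h0⟩
  have z00 : 0 ≤ z0 := by
    have := (hf _ c6).1
    rw [ev_f_pt hΔ] at this; linarith
  -- vertical and slanted edges come together
  have VS : (∃ k, ev g (e k) = 0) → (∃ k, ev (f + g) (e k) = 0) ∨ z0 = 0 := by
    intro hv
    obtain ⟨c1, c4⟩ := Ver hv
    by_cases hz : z0 = 0
    · right; exact hz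
    · left
      apply face (f + g) mh hh0 hhh _ c6 _ c1
      · intro heq2
        have := congrArg (ev g) heq2
        rw [ev_g_pt hΔ, ev_g_pt hΔ] at this
        apply hz; linarith
      · left
        rw [add_ev, add_ev, ev_g_pt hΔ, ev_g_pt hΔ, ev_f_pt hΔ, ev_f_pt hΔ, hz0]
        constructor <;> ring
  have SV : (∃ k, ev (f + g) (e k) = 0) → (∃ k, ev g (e k) = 0) := by
    intro hv
    obtain ⟨c2, c5⟩ := Sla hv
    by_cases hz : z0 = 0
    · apply face g mg hg0 hg _ c6 _ c5
      · intro heq2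
        have := congrArg (ev f) heq2
        rw [ev_f_pt hΔ, ev_f_pt hΔ, hz] at this
        linarith
      · left
        rw [ev_g_pt hΔ, ev_g_pt hΔ]
        constructor <;> ring
    · apply face g mg hg0 hg _ c2 _ c3
      · intro heq2
        have := congrArg (ev f) heq2
        rw [ev_f_pt hΔ, ev_f_pt hΔ] at this
        apply hz; linarith
      · right
        rw [ev_g_pt hΔ, ev_g_pt hΔ]
        constructor <;> ring
  -- enough: a vertical edge
  suffices hV : ∃ k, ev g (e k) = 0 by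
    obtain ⟨c1, c4⟩ := Ver hV
    rcases VS hV with hS | hz
    · obtain ⟨c2, c5⟩ := Sla hS
      exact ⟨c1, c2, c3, c4, c5, c6⟩
    · refine ⟨c1, ?_, c3, c4, ?_, c6⟩
      · rw [hz] at c3; exact c3
      · rw [hz] at c4; exact c4
  suffices hVS : (∃ k, ev g (e k) = 0) ∨ (∃ k, ev (f + g) (e k) = 0) by
    rcases hVS with h1 | h1
    · exact h1
    · exact SV h1
  -- the next edge
  have hcr : 0 < cr (e 0) (e 1) := by
    have hne1 : (2 : Fin (m + 3)) ≠ 0 := by
      intro h; have := congrArg Fin.val h; rw [Fin.val_two] at this; simp at this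
    have hne2 : (2 : Fin (m + 3)) ≠ 1 := by
      intro h; have := congrArg Fin.val h; rw [Fin.val_two] at this; simp at this
    have r0 : finRotate (m + 3) 0 = 1 := by rw [finRotate_apply, zero_add]
    have r1 : finRotate (m + 3) 1 = 2 := by rw [finRotate_apply]; rfl
    have := h 0 2 hne1 (by rw [r0]; exact hne2)
    rw [r0] at this
    simp only [he, r0, r1]
    simp only [cr, Prod.fst_sub, Prod.snd_sub] at this ⊢
    linarith
  have hfe1 : ev f (e 1) ≠ 0 := by
    intro h1
    have h0' : ev f (e 0) = 0 := h0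
    have k1 : f.1 * cr (e 0) (e 1) = 0 := by
      simp only [ev] at h0' h1
      simp only [cr]
      linear_combination (e 1).2 * h0' - (e 0).2 * h1
    have k2 : f.2 * cr (e 0) (e 1) = 0 := by
      simp only [ev] at h0' h1
      simp only [cr]
      linear_combination (e 0).1 * h1 - (e 1).1 * h0'
    exact hf0 (Prod.ext ((mul_eq_zero.1 k1).resolve_right hcr.ne')
      ((mul_eq_zero.1 k2).resolve_right hcr.ne'))
  obtain ⟨r0, p, hp, q, hq, hpq⟩ := hr 1
  have hreq := heq 1
  have hpq' : e 1 = r 1 • (q - p) := hpq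
  have a1 : ev g (e 1) = r 1 * (ev g q - ev g p) := by rw [hpq', ev_smul, ev_sub]
  have b1 : ev f (e 1) = r 1 * (ev f q - ev f p) := by rw [hpq', ev_smul, ev_sub]
  set A := ev g q - ev g p with hA
  set B := ev f q - ev f p with hB
  have hB0 : B ≠ 0 := by
    intro h1; apply hfe1; rw [b1, h1, mul_zero]
  have hnorm : |B| + |A| + |B + A| = 2 := by
    have h1 : r 1 = (|ev f (e 1)| + |ev g (e 1)| + |ev f (e 1) + ev g (e 1)|) / 2 := hreq
    rw [a1, b1, ← mul_add, abs_mul, abs_mul, abs_mul, abs_of_pos r0] at h1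
    have h2 : r 1 * (|B| + |A| + |B + A|) = r 1 * 2 := by linarith
    exact mul_left_cancel₀ r0.ne' h2
  by_cases hA0 : A = 0
  · left; exact ⟨1, by rw [a1, hA0, mul_zero]⟩
  -- points `p`, `q` are not both the corners
  have hnot : ¬ (p = pt f g mf mg 0 z0 ∧ q = pt f g mf mg 1 z0) := by
    rintro ⟨h1, h2⟩
    apply hB0
    rw [hB, h1, h2, ev_f_pt hΔ, ev_f_pt hΔ, sub_self]
  have hnot' : ¬ (q = pt f g mf mg 0 z0 ∧ p = pt f g mf mg 1 z0) := by
    rintro ⟨h1, h2⟩
    apply hB0
    rw [hB, h1, h2, ev_f_pt hΔ, ev_f_pt hΔ, sub_self]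
  have gp := hg p hp
  have gq := hg q hq
  have fp := hf p hp
  have fq := hf q hq
  have hp3 := hh p hp
  have hq3 := hh q hq
  have two : ∀ p' ∈ K, ∀ q' ∈ K, ¬ (p' = pt f g mf mg 0 z0 ∧ q' = pt f g mf mg 1 z0) →
      ((ev g p' = mg ∧ ev g q' = mg + 1) → ∃ k, ev g (e k) = 0) ∧
      ((ev f p' + ev g p' = mh ∧ ev f q' + ev g q' = mh + 1) → ∃ k, ev (f + g) (e k) = 0) := by
    intro p' hp' q' hq' hn
    constructor
    · rintro ⟨h1, h2⟩
      by_cases h3 : p' = pt f g mf mg 0 z0
      · have h4 : q' ≠ pt f g mf mg 1 z0 := fun h4 => hn ⟨h3, h4⟩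
        exact face g mg hg0 hg _ hq' _ c3 h4 (Or.inr ⟨h2, by rw [ev_g_pt hΔ]⟩)
      · exact face g mg hg0 hg _ hp' _ c6 h3 (Or.inl ⟨h1, by rw [ev_g_pt hΔ, add_zero]⟩)
    · rintro ⟨h1, h2⟩
      by_cases h3 : p' = pt f g mf mg 0 z0
      · have h4 : q' ≠ pt f g mf mg 1 z0 := fun h4 => hn ⟨h3, h4⟩
        exact face (f + g) mh hh0 hhh _ hq' _ c3 h4 (Or.inr ⟨by rw [add_ev]; exact h2,
          by rw [add_ev, ev_g_pt hΔ, ev_f_pt hΔ, hz0]; ring⟩)
      · exact face (f + g) mh hh0 hhh _ hp' _ c6 h3 (Or.inl ⟨by rw [add_ev]; exact h1,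
          by rw [add_ev, ev_g_pt hΔ, ev_f_pt hΔ, hz0]; ring⟩)
  -- the forbidden directions
  have forb : ¬ (A * B < 0 ∧ |A| < |B|) := by
    rintro ⟨hAB, hlt⟩
    set μ := cr (e 1) (v 1) with hμ
    have hcrK : ∀ z ∈ K, μ ≤ cr (e 1) z := by
      intro z hz
      have := hull_ge (φ := (-(e 1).2, (e 1).1)) (μ := μ) (v := v) (fun i => ?_) hz
      · have h5 : ev (-(e 1).2, (e 1).1) z = cr (e 1) z := by simp only [ev, cr]; ring
        rwa [h5] at this
      · have h5 : ev (-(e 1).2, (e 1).1) (v i) = cr (e 1) (v i) := by simp only [ev, cr]; ring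
        rw [h5]
        by_cases hi1 : i = 1
        · rw [hi1]
        · by_cases hi2 : i = finRotate (m + 3) 1
          · rw [hi2, hμ]
            simp only [he, cr, Prod.fst_sub, Prod.snd_sub]
            apply le_of_eq; ring
          · have h6 := h 1 i hi1 hi2
            have h7 : cr (v (finRotate (m + 3) 1) - v 1) (v i - v 1) =
                cr (e 1) (v i) - cr (e 1) (v 1) := by
              simp only [he, cr, Prod.fst_sub, Prod.snd_sub]; ring
            rw [h7] at h6
            linarith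
    have hΔcr : ∀ z, ev f (e 1) * ev g z - ev g (e 1) * ev f z =
        (f.1 * g.2 - f.2 * g.1) * cr (e 1) z := by
      intro z; simp only [ev, cr]; ring
    -- the two end points of the edge have the same value
    have hv3 : cr (e 1) (v (finRotate (m + 3) 1)) = cr (e 1) (v 1) := by
      simp only [he, cr, Prod.fst_sub, Prod.snd_sub]; ring
    have k6 := hcrK _ c6
    have k3 := hcrK _ c3
    have G1 := hg _ (hvK 1)
    have G2 := hg _ (hvK (finRotate (m + 3) 1))
    have H1 := hh _ (hvK 1)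
    have H2 := hh _ (hvK (finRotate (m + 3) 1))
    have hgne : ev g (v (finRotate (m + 3) 1)) ≠ ev g (v 1) := by
      intro h8
      have : ev g (e 1) = 0 := by simp only [he, ev_sub]; rw [h8, sub_self]
      rw [a1] at this
      rcases mul_eq_zero.1 this with h9 | h9
      · exact r0.ne' h9
      · exact hA0 h9
    have hP : 0 < (B + A) * B := by
      have h1 := mul_lt_mul_of_pos_right hlt (abs_pos.2 hB0)
      rw [abs_mul_abs_self, ← abs_mul, abs_of_neg hAB] at h1
      linarith
    have hQ : 0 < -(A * B) := by linarith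
    have hE : ∀ z, r 1 * ((B + A) * B * ev g z + -(A * B) * (ev f z + ev g z)) =
        (B * (f.1 * g.2 - f.2 * g.1)) * cr (e 1) z := by
      intro z
      have := hΔcr z
      rw [a1, b1] at this
      linear_combination B * this
    have hE1 := hE (v 1)
    have hE2 := hE (v (finRotate (m + 3) 1))
    rw [hv3] at hE2
    have hE6 := hE (pt f g mf mg 0 z0)
    have hE3 := hE (pt f g mf mg 1 z0)
    rw [ev_f_pt hΔ, ev_g_pt hΔ] at hE6 hE3
    have hBΔ : B * (f.1 * g.2 - f.2 * g.1) ≠ 0 := mul_ne_zero hB0 hΔ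
    have zz : mf + z0 + mg = mh := by rw [hz0]; ring
    -- a linear form with positive coefficients is extremal only at the corner
    have ext : ∀ x y : ℝ, 0 ≤ x → 0 ≤ y →
        (B + A) * B * x + -(A * B) * y ≤ 0 → x = 0 := by
      intro x y hx hy hxy
      have e1 : 0 ≤ -(A * B) * y := mul_nonneg hQ.le hy
      have e2 : 0 ≤ (B + A) * B * x := mul_nonneg hP.le hx
      have e3 : (B + A) * B * x = 0 := by linarith
      exact (mul_eq_zero.1 e3).resolve_left hP.ne'
    rcases lt_or_gt_of_ne hBΔ with hs | hs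
    · -- maximum
      have m3 := mul_le_mul_of_nonpos_left k3 hs.le
      have g1 : ev g (v 1) = mg + 1 := by
        have : mg + 1 - ev g (v 1) = 0 := by
          apply ext _ (mh + 1 - (ev f (v 1) + ev g (v 1))) (by linarith) (by linarith)
          have : r 1 * ((B + A) * B * (mg + 1 - ev g (v 1)) +
              -(A * B) * (mh + 1 - (ev f (v 1) + ev g (v 1)))) ≤ 0 := by
            have e1 : r 1 * ((B + A) * B * (mg + 1 - ev g (v 1)) +
              -(A * B) * (mh + 1 - (ev f (v 1) + ev g (v 1)))) =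
              (B * (f.1 * g.2 - f.2 * g.1)) * cr (e 1) (pt f g mf mg 1 z0) -
              (B * (f.1 * g.2 - f.2 * g.1)) * cr (e 1) (v 1) := by
              rw [← hE3, ← hE1, ← zz]; ring
            rw [e1]; linarith
          by_contra h9
          push Not at h9
          have := mul_pos r0 h9
          linarith
        linarith
      have g2 : ev g (v (finRotate (m + 3) 1)) = mg + 1 := by
        have : mg + 1 - ev g (v (finRotate (m + 3) 1)) = 0 := by
          apply ext _ (mh + 1 - (ev f (v (finRotate (m + 3) 1)) + ev g (v (finRotate (m + 3) 1))))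
            (by linarith) (by linarith)
          have : r 1 * ((B + A) * B * (mg + 1 - ev g (v (finRotate (m + 3) 1))) +
              -(A * B) * (mh + 1 - (ev f (v (finRotate (m + 3) 1)) +
                ev g (v (finRotate (m + 3) 1))))) ≤ 0 := by
            have e1 : r 1 * ((B + A) * B * (mg + 1 - ev g (v (finRotate (m + 3) 1))) +
              -(A * B) * (mh + 1 - (ev f (v (finRotate (m + 3) 1)) +
                ev g (v (finRotate (m + 3) 1))))) =
              (B * (f.1 * g.2 - f.2 * g.1)) * cr (e 1) (pt f g mf mg 1 z0) -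
              (B * (f.1 * g.2 - f.2 * g.1)) * cr (e 1) (v 1) := by
              rw [← hE3, ← hE2, ← zz]; ring
            rw [e1]; linarith
          by_contra h9
          push Not at h9
          have := mul_pos r0 h9
          linarith
        linarith
      exact hgne (g2.trans g1.symm)
    · -- minimum
      have m6 := mul_le_mul_of_nonneg_left k6 hs.le
      have g1 : ev g (v 1) = mg := by
        have : ev g (v 1) - mg = 0 := by
          apply ext _ ((ev f (v 1) + ev g (v 1)) - mh) (by linarith) (by linarith)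
          have : r 1 * ((B + A) * B * (ev g (v 1) - mg) +
              -(A * B) * ((ev f (v 1) + ev g (v 1)) - mh)) ≤ 0 := by
            have e1 : r 1 * ((B + A) * B * (ev g (v 1) - mg) +
              -(A * B) * ((ev f (v 1) + ev g (v 1)) - mh)) =
              (B * (f.1 * g.2 - f.2 * g.1)) * cr (e 1) (v 1) -
              (B * (f.1 * g.2 - f.2 * g.1)) * cr (e 1) (pt f g mf mg 0 z0) := by
              rw [← hE6, ← hE1, ← zz]; ring
            rw [e1]; linarith
          by_contra h9
          push Not at h9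
          have := mul_pos r0 h9
          linarith
        linarith
      have g2 : ev g (v (finRotate (m + 3) 1)) = mg := by
        have : ev g (v (finRotate (m + 3) 1)) - mg = 0 := by
          apply ext _ ((ev f (v (finRotate (m + 3) 1)) + ev g (v (finRotate (m + 3) 1))) - mh)
            (by linarith) (by linarith)
          have : r 1 * ((B + A) * B * (ev g (v (finRotate (m + 3) 1)) - mg) +
              -(A * B) * ((ev f (v (finRotate (m + 3) 1)) +
                ev g (v (finRotate (m + 3) 1))) - mh)) ≤ 0 := by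
            have e1 : r 1 * ((B + A) * B * (ev g (v (finRotate (m + 3) 1)) - mg) +
              -(A * B) * ((ev f (v (finRotate (m + 3) 1)) +
                ev g (v (finRotate (m + 3) 1))) - mh)) =
              (B * (f.1 * g.2 - f.2 * g.1)) * cr (e 1) (v 1) -
              (B * (f.1 * g.2 - f.2 * g.1)) * cr (e 1) (pt f g mf mg 0 z0) := by
              rw [← hE6, ← hE2, ← zz]; ring
            rw [e1]; linarith
          by_contra h9
          push Not at h9
          have := mul_pos r0 h9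
          linarith
        linarith
      exact hgne (g2.trans g1.symm)
  rcases abs_cases B with ⟨b2, b3⟩ | ⟨b2, b3⟩ <;> rcases abs_cases A with ⟨a2, a3⟩ | ⟨a2, a3⟩
  · -- both nonnegative
    have hs : |B + A| = B + A := abs_of_nonneg (by linarith)
    have h1 : B + A = 1 := by linarith
    right
    apply (two p hp q hq hnot).2
    constructor <;> linarith
  · have hBpos : 0 < B := lt_of_le_of_ne b3 (Ne.symm hB0)
    by_cases h1 : A = -1
    · left
      apply (two q hq p hp hnot').1
      constructor <;> linarith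
    · exfalso
      rcases abs_cases (B + A) with ⟨s1, s2⟩ | ⟨s1, s2⟩
      · have h2 : B = 1 := by linarith
        apply forb
        refine ⟨mul_neg_of_neg_of_pos a3 hBpos, ?_⟩
        rw [a2, b2, h2]
        have : -1 ≤ A := by linarith
        have : -1 < A := lt_of_le_of_ne this (Ne.symm h1)
        linarith
      · exact h1 (by linarith)
  · have hApos : 0 < A := lt_of_le_of_ne a3 (Ne.symm hA0)
    by_cases h1 : A = 1
    · left
      apply (two p hp q hq hnot).1
      constructor <;> linarith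
    · exfalso
      rcases abs_cases (B + A) with ⟨s1, s2⟩ | ⟨s1, s2⟩
      · exact h1 (by linarith)
      · have h2 : B = -1 := by linarith
        apply forb
        refine ⟨mul_neg_of_pos_of_neg hApos b3, ?_⟩
        rw [a2, b2, h2]
        linarith
  · have hs : |B + A| = -(B + A) := abs_of_nonpos (by linarith)
    have h1 : B + A = -1 := by linarith
    right
    apply (two q hq p hp hnot').2
    constructor <;> linarith

end Pool.Agent.Y476.LC
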