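import Pool.Agent.Y476.LC.Width

set_option autoImplicit false

/-!
# Longest chords are attained; the hexagonal lower bound
-/

namespace Pool.Agent.Y476.LC

lemma smul_of_cr {d w : ℝ × ℝ} (hd : d ≠ 0) (h : cr d w = 0) : ∃ c : ℝ, w = c • d := by
  have hpos : 0 < d.1 ^ 2 + d.2 ^ 2 := by
    rcases Classical.em (d.1 = 0) with h0 | h0
    · have : d.2 ≠ 0 := by
        intro h3; exact hd (Prod.ext h0 h3)
      positivity
    · positivity
  have hne := hpos.ne'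
  refine ⟨(d.1 * w.1 + d.2 * w.2) / (d.1 ^ 2 + d.2 ^ 2), ?_⟩
  simp only [cr] at h
  apply Prod.ext
  · simp only [Prod.smul_fst, smul_eq_mul]
    field_simp
    linear_combination (-d.2) * h
  · simp only [Prod.smul_snd, smul_eq_mul]
    field_simp
    linear_combination d.1 * h

theorem chord {n : ℕ} {v : Fin n → ℝ × ℝ} {x0 y0 : ℝ × ℝ}
    (hx0 : x0 ∈ convexHull ℝ (Set.range v)) (hy0 : y0 ∈ convexHull ℝ (Set.range v))
    (hne : y0 - x0 ≠ 0) {b : ℝ}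
    (hb : b = sSup {r : ℝ | ∃ x ∈ convexHull ℝ (Set.range v),
      ∃ y ∈ convexHull ℝ (Set.range v), ∃ c : ℝ, y - x = c • (y0 - x0) ∧ r = dist x y}) :
    0 < dist x0 y0 / b ∧ ∃ p ∈ convexHull ℝ (Set.range v), ∃ q ∈ convexHull ℝ (Set.range v),
      y0 - x0 = (dist x0 y0 / b) • (q - p) := by
  set K := convexHull ℝ (Set.range v) with hK
  have hKc : IsCompact K := Set.Finite.isCompact_convexHull (𝕜 := ℝ) (Set.finite_range v)
  set d := y0 - x0 with hd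
  have hTc : IsCompact ((K ×ˢ K) ∩ {z : (ℝ × ℝ) × (ℝ × ℝ) | cr d (z.2 - z.1) = 0}) := by
    apply (hKc.prod hKc).inter_right
    apply isClosed_eq
    · unfold cr; fun_prop
    · fun_prop
  have hTn : ((K ×ˢ K) ∩ {z : (ℝ × ℝ) × (ℝ × ℝ) | cr d (z.2 - z.1) = 0}).Nonempty := by
    refine ⟨(x0, y0), ⟨hx0, hy0⟩, ?_⟩
    simp only [Set.mem_ofPred_eq, ← hd, cr]; ring
  obtain ⟨⟨x, y⟩, ⟨⟨hx, hy⟩, hxy⟩, hmax⟩ := hTc.exists_isMaxOn hTn
    (f := fun z => dist z.1 z.2) (by fun_prop)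
  simp only [Set.mem_ofPred_eq] at hxy hx hy
  obtain ⟨c, hc⟩ := smul_of_cr hne hxy
  have hgreat : IsGreatest {r : ℝ | ∃ x ∈ K, ∃ y ∈ K, ∃ c : ℝ, y - x = c • d ∧ r = dist x y}
      (dist x y) := by
    refine ⟨⟨x, hx, y, hy, c, hc, rfl⟩, ?_⟩
    rintro r ⟨x', hx', y', hy', c', hc', rfl⟩
    have := hmax (show (x', y') ∈ _ from ⟨⟨hx', hy'⟩, by
      simp only [Set.mem_ofPred_eq, hc', cr, Prod.smul_fst, Prod.smul_snd, smul_eq_mul]; ring⟩)
    exact this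
  have hbe : b = dist x y := by rw [hb, hgreat.csSup_eq]
  have hd0 : 0 < ‖d‖ := norm_pos_iff.2 hne
  have hdist : dist x0 y0 = ‖d‖ := by rw [dist_comm, dist_eq_norm]
  have hle : dist x0 y0 ≤ dist x y := by
    have := hgreat.2 (show dist x0 y0 ∈ _ from ⟨x0, hx0, y0, hy0, 1, by rw [one_smul], rfl⟩)
    exact this
  have hbd : b = |c| * ‖d‖ := by
    rw [hbe, dist_comm, dist_eq_norm, hc, norm_smul, Real.norm_eq_abs]
  have hbpos : 0 < b := by rw [hbe]; linarith [hdist ▸ hle]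
  have hc0 : 0 < |c| := by
    by_contra h0
    push Not at h0
    have : |c| * ‖d‖ ≤ 0 := mul_nonpos_of_nonpos_of_nonneg h0 hd0.le
    linarith
  have hr : dist x0 y0 / b = |c|⁻¹ := by
    rw [hdist, hbd]; field_simp
  refine ⟨by rw [hr]; positivity, ?_⟩
  rcases abs_cases c with ⟨h1, h2⟩ | ⟨h1, h2⟩
  · refine ⟨x, hx, y, hy, ?_⟩
    rw [hr, h1, hc, smul_smul, inv_mul_cancel₀, one_smul]
    rw [← h1]; exact hc0.ne'
  · refine ⟨y, hy, x, hx, ?_⟩
    rw [hr, h1]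
    have : x - y = (-c) • d := by rw [neg_smul, ← hc]; abel
    rw [this, smul_smul, inv_mul_cancel₀, one_smul]
    rw [← h1]; exact hc0.ne'

lemma abs_le_r {n : ℕ} {v : Fin n → ℝ × ℝ} {φ : ℝ × ℝ} (hφ : Adm v φ) {e p q : ℝ × ℝ} {r : ℝ}
    (hr : 0 < r) (hp : p ∈ convexHull ℝ (Set.range v)) (hq : q ∈ convexHull ℝ (Set.range v))
    (he : e = r • (q - p)) : |ev φ e| ≤ r := by
  obtain ⟨jm, jM, h1, h2, h3⟩ := hφ
  have p1 := hull_ge h1 hp
  have p2 := hull_le h2 hp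
  have q1 := hull_ge h1 hq
  have q2 := hull_le h2 hq
  rw [he, ev_smul, abs_mul, abs_of_pos hr, ev_sub]
  have : |ev φ q - ev φ p| ≤ 1 := by rw [abs_le]; constructor <;> linarith
  calc r * |ev φ q - ev φ p| ≤ r * 1 := mul_le_mul_of_nonneg_left this hr.le
    _ = r := mul_one r

lemma hex_le {a b r : ℝ} (h1 : |a| ≤ r) (h2 : |b| ≤ r) (h3 : |a + b| ≤ r) :
    (|a| + |b| + |a + b|) / 2 ≤ r := by
  rcases abs_cases a with ⟨a1, a2⟩ | ⟨a1, a2⟩ <;>
  rcases abs_cases b with ⟨b1, b2⟩ | ⟨b1, b2⟩ <;>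
  rcases abs_cases (a + b) with ⟨c1, c2⟩ | ⟨c1, c2⟩ <;> linarith

lemma two_le_sum {m : ℕ} {v : Fin (m + 1) → ℝ × ℝ} {φ : ℝ × ℝ} (hφ : Adm v φ) :
    2 ≤ ∑ i, |ev φ (v (finRotate (m + 1) i) - v i)| := by
  obtain ⟨jm, jM, h1, h2, h3⟩ := hφ
  have := sum_abs_ge (fun i => ev φ (v i)) jm jM
  simp only [ev_sub]
  linarith

/-- lower bound, with the equality information -/
theorem lower {m : ℕ} {v : Fin (m + 1) → ℝ × ℝ} {f g : ℝ × ℝ} (hf : Adm v f) (hg : Adm v g)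
    (hh : Adm v (f + g)) {r : Fin (m + 1) → ℝ}
    (hr : ∀ i, 0 < r i ∧ ∃ p ∈ convexHull ℝ (Set.range v), ∃ q ∈ convexHull ℝ (Set.range v),
      v (finRotate (m + 1) i) - v i = r i • (q - p)) :
    3 ≤ ∑ i, r i ∧ (∑ i, r i = 3 → ∀ i,
      r i = (|ev f (v (finRotate (m + 1) i) - v i)| + |ev g (v (finRotate (m + 1) i) - v i)| +
        |ev f (v (finRotate (m + 1) i) - v i) + ev g (v (finRotate (m + 1) i) - v i)|) / 2) := by
  have key : ∀ i, (|ev f (v (finRotate (m + 1) i) - v i)| +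
      |ev g (v (finRotate (m + 1) i) - v i)| +
      |ev f (v (finRotate (m + 1) i) - v i) + ev g (v (finRotate (m + 1) i) - v i)|) / 2 ≤ r i := by
    intro i
    obtain ⟨h0, p, hp, q, hq, he⟩ := hr i
    apply hex_le (abs_le_r hf h0 hp hq he) (abs_le_r hg h0 hp hq he)
    have := abs_le_r hh h0 hp hq he
    rwa [add_ev] at this
  have s1 := two_le_sum hf
  have s2 := two_le_sum hg
  have s3 := two_le_sum hh
  simp only [add_ev] at s3
  have s : ∑ i, (|ev f (v (finRotate (m + 1) i) - v i)| +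
      |ev g (v (finRotate (m + 1) i) - v i)| +
      |ev f (v (finRotate (m + 1) i) - v i) + ev g (v (finRotate (m + 1) i) - v i)|) / 2 =
      (∑ i, |ev f (v (finRotate (m + 1) i) - v i)| + ∑ i, |ev g (v (finRotate (m + 1) i) - v i)| +
      ∑ i, |ev f (v (finRotate (m + 1) i) - v i) + ev g (v (finRotate (m + 1) i) - v i)|) / 2 := by
    rw [← Finset.sum_div, Finset.sum_add_distrib, Finset.sum_add_distrib]
  have t := Finset.sum_le_sum (fun i (_ : i ∈ Finset.univ) => key i)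
  rw [s] at t
  refine ⟨by linarith, fun h3 i => ?_⟩
  have z : ∑ i, (r i - (|ev f (v (finRotate (m + 1) i) - v i)| +
      |ev g (v (finRotate (m + 1) i) - v i)| +
      |ev f (v (finRotate (m + 1) i) - v i) + ev g (v (finRotate (m + 1) i) - v i)|) / 2) = 0 := by
    apply le_antisymm
    · rw [Finset.sum_sub_distrib, s]; linarith
    · exact Finset.sum_nonneg (fun i _ => sub_nonneg.2 (key i))
  have := (Finset.sum_eq_zero_iff_of_nonneg (fun i _ => sub_nonneg.2 (key i))).1 z i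
    (Finset.mem_univ i)
  linarith

/-- an edge on which `α` and `β` agree produces two opposite corners -/
lemma corner {K : Set (ℝ × ℝ)} {α β : ℝ × ℝ} {mα mβ : ℝ}
    (hα : ∀ x ∈ K, mα ≤ ev α x ∧ ev α x ≤ mα + 1) (hβ : ∀ x ∈ K, mβ ≤ ev β x ∧ ev β x ≤ mβ + 1)
    {e p q : ℝ × ℝ} {r : ℝ} (hr : 0 < r) (hp : p ∈ K) (hq : q ∈ K) (he : e = r • (q - p))
    (hra : r = |ev α e|) (hab : ev β e = ev α e) :
    ∃ p' ∈ K, ∃ q' ∈ K, ev α p' = mα ∧ ev β p' = mβ ∧ ev α q' = mα + 1 ∧ ev β q' = mβ + 1 := by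
  have h1 : ev α e = r * (ev α q - ev α p) := by rw [he, ev_smul, ev_sub]
  have h2 : ev β e = r * (ev β q - ev β p) := by rw [he, ev_smul, ev_sub]
  have h3 : ev β q - ev β p = ev α q - ev α p := by
    rw [h1, h2] at hab
    exact mul_left_cancel₀ hr.ne' hab
  have h4 : |ev α q - ev α p| = 1 := by
    rw [h1, abs_mul, abs_of_pos hr] at hra
    have : r * 1 = r * |ev α q - ev α p| := by rw [mul_one]; exact hra
    exact (mul_left_cancel₀ hr.ne' this).symm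
  have a1 := hα p hp
  have a2 := hα q hq
  have b1 := hβ p hp
  have b2 := hβ q hq
  rcases abs_cases (ev α q - ev α p) with ⟨c1, c2⟩ | ⟨c1, c2⟩
  · refine ⟨p, hp, q, hq, ?_, ?_, ?_, ?_⟩ <;> linarith
  · refine ⟨q, hq, p, hp, ?_, ?_, ?_, ?_⟩ <;> linarith

end Pool.Agent.Y476.LC
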