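import Mathlib

set_option autoImplicit false

/-!
# Planar functionals, closed polygons, widths

Auxiliary lemmas for the side-to-longest-chord inequality of convex polygons.
-/

namespace Pool.Agent.Y476.LC

/-- the value of the functional `φ` at the point `x` -/
def ev (φ x : ℝ × ℝ) : ℝ := φ.1 * x.1 + φ.2 * x.2

/-- the cross product -/
def cr (a b : ℝ × ℝ) : ℝ := a.1 * b.2 - a.2 * b.1

lemma ev_sub (φ x y : ℝ × ℝ) : ev φ (x - y) = ev φ x - ev φ y := by
  simp only [ev, Prod.fst_sub, Prod.snd_sub]; ring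

lemma ev_add (φ x y : ℝ × ℝ) : ev φ (x + y) = ev φ x + ev φ y := by
  simp only [ev, Prod.fst_add, Prod.snd_add]; ring

lemma ev_smul (φ x : ℝ × ℝ) (c : ℝ) : ev φ (c • x) = c * ev φ x := by
  simp only [ev, Prod.smul_fst, Prod.smul_snd, smul_eq_mul]; ring

lemma add_ev (φ ψ x : ℝ × ℝ) : ev (φ + ψ) x = ev φ x + ev ψ x := by
  simp only [ev, Prod.fst_add, Prod.snd_add]; ring

lemma smul_ev (φ x : ℝ × ℝ) (c : ℝ) : ev (c • φ) x = c * ev φ x := by
  simp only [ev, Prod.smul_fst, Prod.smul_snd, smul_eq_mul]; ring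

lemma neg_ev (φ x : ℝ × ℝ) : ev (-φ) x = - ev φ x := by
  simp only [ev, Prod.fst_neg, Prod.snd_neg]; ring

/-- The total variation of a closed polygon is at least twice the oscillation. -/
theorem sum_abs_ge {m : ℕ} (a : Fin (m + 1) → ℝ) (p q : Fin (m + 1)) :
    2 * (a q - a p) ≤ ∑ i, |a (finRotate (m + 1) i) - a i| := by
  have c0 : ∀ i : Fin (m + 1), Fin.ofNat (m + 1) i.val = i := by
    intro i; apply Fin.ext; simp [Fin.ofNat, Nat.mod_eq_of_lt i.isLt]
  have c1 : ∀ k : ℕ, Fin.ofNat (m + 1) (k + 1) = Fin.ofNat (m + 1) k + 1 := by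
    intro k; apply Fin.ext; simp [Fin.val_add, Fin.ofNat, Nat.add_mod]
  set s : ℕ → ℝ := fun k => a (Fin.ofNat (m + 1) k + p) with hs
  have h1 : ∑ i, |a (finRotate (m + 1) i) - a i| =
      ∑ k ∈ Finset.range (m + 1), dist (s k) (s (k + 1)) := by
    rw [← Fin.sum_univ_eq_sum_range (fun k => dist (s k) (s (k + 1)))]
    rw [← Equiv.sum_comp (Equiv.addRight p) (fun i => |a (finRotate (m + 1) i) - a i|)]
    refine Finset.sum_congr rfl fun i _ => ?_
    simp only [hs, Real.dist_eq, finRotate_apply, Equiv.coe_addRight]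
    rw [abs_sub_comm, c1, c0, add_right_comm]
  rw [h1]
  have hk : (q - p).val ≤ m + 1 := (q - p).isLt.le
  have e1 := dist_le_Ico_sum_dist s (Nat.zero_le (q - p).val)
  have e2 := dist_le_Ico_sum_dist s hk
  have e3 : ∑ i ∈ Finset.range (m + 1), dist (s i) (s (i + 1)) =
      ∑ i ∈ Finset.Ico 0 (q - p).val, dist (s i) (s (i + 1)) +
      ∑ i ∈ Finset.Ico (q - p).val (m + 1), dist (s i) (s (i + 1)) := by
    rw [Finset.sum_Ico_consecutive _ (Nat.zero_le _) hk, Finset.range_eq_Ico]
  have s0 : s 0 = a p := by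
    simp only [hs]
    have : Fin.ofNat (m + 1) 0 = 0 := rfl
    rw [this, zero_add]
  have sk : s (q - p).val = a q := by
    simp only [hs]
    rw [c0]; simp
  have sm : s (m + 1) = a p := by
    simp only [hs]
    have : Fin.ofNat (m + 1) (m + 1) = 0 := by
      apply Fin.ext; simp [Fin.ofNat]
    rw [this, zero_add]
  rw [s0, sk] at e1
  rw [sk, sm] at e2
  rw [Real.dist_eq] at e1 e2
  have := neg_abs_le (a p - a q)
  have := le_abs_self (a q - a p)
  linarith

/-- convexity hypothesis: a strictly convex polygon in counterclockwise order -/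
def SC {n : ℕ} (v : Fin n → ℝ × ℝ) : Prop :=
  ∀ i j : Fin n, j ≠ i → j ≠ finRotate n i →
    0 < cr (v (finRotate n i) - v i) (v j - v i)

lemma adj_of_face {n : ℕ} {v : Fin n → ℝ × ℝ} (h : SC v) {φ : ℝ × ℝ} (hφ : φ ≠ 0) {μ : ℝ}
    (hμ : ∀ i, μ ≤ ev φ (v i)) {j k : Fin n} (hjk : j ≠ k) (hj : ev φ (v j) = μ)
    (hk : ev φ (v k) = μ) : finRotate n j = k ∨ finRotate n k = j := by
  by_contra hcon
  push Not at hcon
  obtain ⟨h1, h2⟩ := hcon
  have c1 := h j k hjk.symm h1.symm
  have c2 := h k j hjk h2.symm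
  have g1 : 0 ≤ ev φ (v (finRotate n j) - v j) := by rw [ev_sub]; linarith [hμ (finRotate n j)]
  have g2 : 0 ≤ ev φ (v (finRotate n k) - v k) := by rw [ev_sub]; linarith [hμ (finRotate n k)]
  have g3 : ev φ (v k - v j) = 0 := by rw [ev_sub]; linarith
  have hpos : 0 < φ.1 ^ 2 + φ.2 ^ 2 := by
    rcases Classical.em (φ.1 = 0) with h0 | h0
    · have : φ.2 ≠ 0 := by
        intro h3; exact hφ (Prod.ext h0 h3)
      positivity
    · positivity
  set d := v k - v j with hd
  have hd' : v j - v k = -d := by rw [hd]; abel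
  rw [hd'] at c2
  set s := φ.1 * d.2 - φ.2 * d.1 with hs
  have key : ∀ e : ℝ × ℝ, (φ.1 ^ 2 + φ.2 ^ 2) * cr e d = s * ev φ e := by
    intro e
    have : φ.1 * d.1 + φ.2 * d.2 = 0 := g3
    simp only [cr, ev, hs]
    linear_combination (φ.1 * e.2 * (-1) + φ.2 * e.1) * this
  have k1 := key (v (finRotate n j) - v j)
  have k2 := key (v (finRotate n k) - v k)
  have c2' : cr (v (finRotate n k) - v k) d < 0 := by
    have : cr (v (finRotate n k) - v k) (-d) = - cr (v (finRotate n k) - v k) d := by
      simp only [cr, Prod.fst_neg, Prod.snd_neg]; ring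
    linarith
  have m1 : 0 < s * ev φ (v (finRotate n j) - v j) := by rw [← k1]; exact mul_pos hpos c1
  have m2 : s * ev φ (v (finRotate n k) - v k) < 0 := by
    rw [← k2]; exact mul_neg_of_pos_of_neg hpos c2'
  have s1 : 0 < s := by
    by_contra hs0
    push Not at hs0
    have := mul_nonpos_of_nonpos_of_nonneg hs0 g1
    linarith
  have := mul_nonneg s1.le g2
  linarith

/-- Two distinct points of the hull on a supporting line force an edge on this line. -/
lemma face_edge {n : ℕ} {v : Fin n → ℝ × ℝ} (h : SC v) {φ : ℝ × ℝ} (hφ : φ ≠ 0) {μ : ℝ}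
    (hμ : ∀ i, μ ≤ ev φ (v i)) {x y : ℝ × ℝ} (hx : x ∈ convexHull ℝ (Set.range v))
    (hy : y ∈ convexHull ℝ (Set.range v)) (hxy : x ≠ y) (ex : ev φ x = μ) (ey : ev φ y = μ) :
    ∃ k, ev φ (v (finRotate n k) - v k) = 0 := by
  by_contra hcon
  push Not at hcon
  have huniq : ∀ j k, ev φ (v j) = μ → ev φ (v k) = μ → j = k := by
    intro j k hj hk
    by_contra hjk
    rcases adj_of_face h hφ hμ hjk hj hk with h1 | h1
    · exact hcon j (by rw [ev_sub, h1, hj, hk, sub_self])
    · exact hcon k (by rw [ev_sub, h1, hj, hk, sub_self])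
  have hsub : ∀ z0 : ℝ × ℝ, μ ≤ ev φ z0 → (∀ i, ev φ (v i) = μ → v i = z0) →
      ∀ z ∈ convexHull ℝ (Set.range v), μ < ev φ z ∨ z = z0 := by
    intro z0 hz0 hall
    have hconv : Convex ℝ {z : ℝ × ℝ | μ < ev φ z ∨ z = z0} := by
      intro a ha b hb s t hs ht hst
      rcases eq_or_lt_of_le hs with h0 | h0
      · subst h0
        have : t = 1 := by linarith
        subst this
        simpa using hb
      rcases eq_or_lt_of_le ht with h1 | h1
      · subst h1
        have : s = 1 := by linarith
        subst this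
        simpa using ha
      simp only [Set.mem_ofPred_eq] at ha hb ⊢
      rw [ev_add, ev_smul, ev_smul]
      rcases ha with ha | ha
      · left
        have hb' : μ ≤ ev φ b := by
          rcases hb with hb | hb
          · exact hb.le
          · rw [hb]; exact hz0
        have e1 := mul_lt_mul_of_pos_left ha h0
        have e2 := mul_le_mul_of_nonneg_left hb' h1.le
        have : μ = s * μ + t * μ := by rw [← add_mul, hst, one_mul]
        linarith
      · rcases hb with hb | hb
        · left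
          have ha' : μ ≤ ev φ a := by rw [ha]; exact hz0
          have e1 := mul_lt_mul_of_pos_left hb h1
          have e2 := mul_le_mul_of_nonneg_left ha' h0.le
          have : μ = s * μ + t * μ := by rw [← add_mul, hst, one_mul]
          linarith
        · right
          rw [ha, hb, ← add_smul, hst, one_smul]
    have : convexHull ℝ (Set.range v) ⊆ {z : ℝ × ℝ | μ < ev φ z ∨ z = z0} := by
      apply convexHull_min _ hconv
      rintro _ ⟨i, rfl⟩
      rcases eq_or_lt_of_le (hμ i) with hi | hi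
      · right; exact hall i hi.symm
      · left; exact hi
    exact fun z hz => this hz
  by_cases hex : ∃ j, ev φ (v j) = μ
  · obtain ⟨j, hj⟩ := hex
    have := hsub (v j) hj.ge (fun i hi => by rw [huniq i j hi hj])
    have hx' := this x hx
    have hy' := this y hy
    rcases hx' with hx' | hx'
    · linarith
    rcases hy' with hy' | hy'
    · linarith
    exact hxy (hx'.trans hy'.symm)
  · push Not at hex
    have h1 := hsub x ex.ge (fun i hi => absurd hi (hex i)) y hy
    rcases h1 with h1 | h1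
    · linarith
    · exact hxy h1.symm

end Pool.Agent.Y476.LC
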