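import Pool.Agent.Y476.LC.Core

set_option autoImplicit false

/-!
# The width of a planar polygon and affine regular hexagons of functionals
-/

namespace Pool.Agent.Y476.LC

/-- `φ` has width one on the points `v` -/
def Adm {n : ℕ} (v : Fin n → ℝ × ℝ) (φ : ℝ × ℝ) : Prop :=
  ∃ jm jM, (∀ i, ev φ (v jm) ≤ ev φ (v i)) ∧ (∀ i, ev φ (v i) ≤ ev φ (v jM)) ∧
    ev φ (v jM) - ev φ (v jm) = 1

/-- the width in direction `φ` -/
noncomputable def wd {n : ℕ} [NeZero n] (v : Fin n → ℝ × ℝ) (φ : ℝ × ℝ) : ℝ :=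
  (Finset.univ : Finset (Fin n × Fin n)).sup' ⟨(0, 0), Finset.mem_univ _⟩
    (fun ij => ev φ (v ij.2) - ev φ (v ij.1))

section
variable {n : ℕ} [NeZero n] (v : Fin n → ℝ × ℝ)

lemma le_wd (φ : ℝ × ℝ) (i j : Fin n) : ev φ (v j) - ev φ (v i) ≤ wd v φ :=
  Finset.le_sup' (fun ij : Fin n × Fin n => ev φ (v ij.2) - ev φ (v ij.1))
    (Finset.mem_univ (i, j))

lemma wd_le {φ : ℝ × ℝ} {c : ℝ} (h : ∀ i j, ev φ (v j) - ev φ (v i) ≤ c) : wd v φ ≤ c :=
  Finset.sup'_le _ _ (fun ij _ => h ij.1 ij.2)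

lemma exists_wd (φ : ℝ × ℝ) : ∃ i j, wd v φ = ev φ (v j) - ev φ (v i) := by
  obtain ⟨ij, -, h⟩ := Finset.exists_mem_eq_sup' (s := (Finset.univ : Finset (Fin n × Fin n)))
    ⟨(0, 0), Finset.mem_univ _⟩ (fun ij => ev φ (v ij.2) - ev φ (v ij.1))
  exact ⟨ij.1, ij.2, h⟩

lemma adm_of_wd {φ : ℝ × ℝ} (h : wd v φ = 1) : Adm v φ := by
  obtain ⟨i, j, hij⟩ := exists_wd v φ
  refine ⟨i, j, fun k => ?_, fun k => ?_, by linarith⟩
  · have := le_wd v φ k j; linarith
  · have := le_wd v φ i k; linarith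

lemma wd_smul (φ : ℝ × ℝ) {c : ℝ} (hc : 0 ≤ c) : wd v (c • φ) = c * wd v φ := by
  apply le_antisymm
  · apply wd_le
    intro i j
    rw [smul_ev, smul_ev, ← mul_sub]
    exact mul_le_mul_of_nonneg_left (le_wd v φ i j) hc
  · obtain ⟨i, j, hij⟩ := exists_wd v φ
    have := le_wd v (c • φ) i j
    rw [smul_ev, smul_ev, ← mul_sub, ← hij] at this
    exact this

lemma wd_neg (φ : ℝ × ℝ) : wd v (-φ) = wd v φ := by
  apply le_antisymm
  · apply wd_le
    intro i j
    have := le_wd v φ j i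
    rw [neg_ev, neg_ev]; linarith
  · apply wd_le
    intro i j
    have := le_wd v (-φ) j i
    rw [neg_ev, neg_ev] at this; linarith

lemma wd_zero : wd v 0 = 0 := by
  obtain ⟨i, j, hij⟩ := exists_wd v 0
  rw [hij]; simp [ev]

lemma continuous_wd : Continuous (wd v) := by
  unfold wd
  apply Continuous.finset_sup'_apply
  intro ij _
  unfold ev
  fun_prop

lemma wd_pos (h : SC v) (hn : 3 ≤ n) {φ : ℝ × ℝ} (hφ : φ ≠ 0) : 0 < wd v φ := by
  by_contra hcon
  push Not at hcon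
  have hall : ∀ i j, ev φ (v j) = ev φ (v i) := by
    intro i j
    have h1 := le_wd v φ i j
    have h2 := le_wd v φ j i
    linarith
  -- three distinct indices
  obtain ⟨m, rfl⟩ : ∃ m, n = m + 3 := ⟨n - 3, by omega⟩
  have h0 : (0 : Fin (m + 3)) ≠ 1 := by
    intro h; have := congrArg Fin.val h; simp at this
  have h1 : (2 : Fin (m + 3)) ≠ 0 := by
    intro h
    have := congrArg Fin.val h
    rw [Fin.val_two] at this
    simp at this
  have h2 : (2 : Fin (m + 3)) ≠ 1 := by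
    intro h
    have := congrArg Fin.val h
    rw [Fin.val_two] at this
    simp at this
  have r0 : finRotate (m + 3) 0 = 1 := by rw [finRotate_apply, zero_add]
  have c := h 0 2 h1 (by rw [r0]; exact h2)
  rw [r0] at c
  have e1 : ev φ (v 1 - v 0) = 0 := by rw [ev_sub, hall 0 1, sub_self]
  have e2 : ev φ (v 2 - v 0) = 0 := by rw [ev_sub, hall 0 2, sub_self]
  have k1 : φ.1 * cr (v 1 - v 0) (v 2 - v 0) = 0 := by
    simp only [ev] at e1 e2
    simp only [cr]
    linear_combination (v 2 - v 0).2 * e1 - (v 1 - v 0).2 * e2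
  have k2 : φ.2 * cr (v 1 - v 0) (v 2 - v 0) = 0 := by
    simp only [ev] at e1 e2
    simp only [cr]
    linear_combination (v 1 - v 0).1 * e2 - (v 2 - v 0).1 * e1
  have z1 : φ.1 = 0 := (mul_eq_zero.1 k1).resolve_right c.ne'
  have z2 : φ.2 = 0 := (mul_eq_zero.1 k2).resolve_right c.ne'
  exact hφ (Prod.ext z1 z2)

/-- Around every functional of width one there is an affine regular hexagon. -/
theorem exists_hexagon (h : SC v) (hn : 3 ≤ n) {f : ℝ × ℝ} (hf : wd v f = 1) :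
    ∃ g, wd v g = 1 ∧ wd v (f + g) = 1 := by
  have hf0 : f ≠ 0 := by
    rintro rfl
    rw [wd_zero] at hf; norm_num at hf
  set u : ℝ → ℝ × ℝ := fun θ => (Real.cos θ * f.1 - Real.sin θ * f.2,
    Real.cos θ * f.2 + Real.sin θ * f.1) with hu
  have hu0 : ∀ θ, u θ ≠ 0 := by
    intro θ h0
    have h1 : Real.cos θ * f.1 - Real.sin θ * f.2 = 0 := congrArg Prod.fst h0
    have h2 : Real.cos θ * f.2 + Real.sin θ * f.1 = 0 := congrArg Prod.snd h0
    have hcs := Real.sin_sq_add_cos_sq θ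
    apply hf0
    apply Prod.ext
    · change f.1 = 0
      linear_combination Real.cos θ * h1 + Real.sin θ * h2 - f.1 * hcs
    · change f.2 = 0
      linear_combination Real.cos θ * h2 - Real.sin θ * h1 - f.2 * hcs
  have hupos : ∀ θ, 0 < wd v (u θ) := fun θ => wd_pos v h hn (hu0 θ)
  have huc : Continuous u := by rw [hu]; fun_prop
  set g : ℝ → ℝ × ℝ := fun θ => (wd v (u θ))⁻¹ • u θ with hg
  have hgc : Continuous g := by
    rw [hg]
    exact (((continuous_wd v).comp huc).inv₀ (fun θ => (hupos θ).ne')).smul huc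
  have hgw : ∀ θ, wd v (g θ) = 1 := by
    intro θ
    rw [hg]
    simp only
    rw [wd_smul v _ (inv_nonneg.2 (hupos θ).le), inv_mul_cancel₀ (hupos θ).ne']
  set G : ℝ → ℝ := fun θ => wd v (f + g θ) with hG
  have hGc : Continuous G := (continuous_wd v).comp (continuous_const.add hgc)
  have u0 : u 0 = f := by simp [hu]
  have uπ : u Real.pi = -f := by
    rw [hu]; apply Prod.ext <;> simp
  have G0 : G 0 = 2 := by
    rw [hG, hg]
    simp only
    rw [u0, hf, inv_one, one_smul]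
    have : f + f = (2 : ℝ) • f := by rw [two_smul]
    rw [this, wd_smul v _ (by norm_num), hf, mul_one]
  have Gπ : G Real.pi = 0 := by
    rw [hG, hg]
    simp only
    rw [uπ, wd_neg, hf, inv_one, one_smul, add_neg_cancel, wd_zero]
  have := intermediate_value_Icc' Real.pi_pos.le (hGc.continuousOn (s := Set.Icc 0 Real.pi))
  rw [G0, Gπ] at this
  obtain ⟨θ, -, hθ⟩ := this (show (1 : ℝ) ∈ Set.Icc 0 2 by constructor <;> norm_num)
  exact ⟨g θ, hgw θ, hθ⟩

end

lemma hull_ge {n : ℕ} {v : Fin n → ℝ × ℝ} {φ : ℝ × ℝ} {μ : ℝ} (h : ∀ i, μ ≤ ev φ (v i))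
    {x : ℝ × ℝ} (hx : x ∈ convexHull ℝ (Set.range v)) : μ ≤ ev φ x := by
  have hconv : Convex ℝ {z : ℝ × ℝ | μ ≤ ev φ z} := by
    intro a ha b hb s t hs ht hst
    simp only [Set.mem_ofPred_eq] at ha hb ⊢
    rw [ev_add, ev_smul, ev_smul]
    have e1 := mul_le_mul_of_nonneg_left ha hs
    have e2 := mul_le_mul_of_nonneg_left hb ht
    have : μ = s * μ + t * μ := by rw [← add_mul, hst, one_mul]
    linarith
  have : convexHull ℝ (Set.range v) ⊆ {z : ℝ × ℝ | μ ≤ ev φ z} := by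
    apply convexHull_min _ hconv
    rintro _ ⟨i, rfl⟩
    exact h i
  exact this hx

lemma hull_le {n : ℕ} {v : Fin n → ℝ × ℝ} {φ : ℝ × ℝ} {μ : ℝ} (h : ∀ i, ev φ (v i) ≤ μ)
    {x : ℝ × ℝ} (hx : x ∈ convexHull ℝ (Set.range v)) : ev φ x ≤ μ := by
  have := hull_ge (φ := -φ) (μ := -μ) (fun i => by rw [neg_ev]; linarith [h i]) hx
  rw [neg_ev] at this; linarith

end Pool.Agent.Y476.LC
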